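import Pool.Agent.Q287.PN9

/-! # The critical curve of random pinning at a selective interface is infinite at its endpoint

The definitions (`walk`, `energy`, `Zn`, `IsFreeEnergy`, `hc`) are in `Pool.Agent.Q287.PN0`. -/

namespace Pool.Agent.Results.MP_11b949_pr.EndpointInfinite

open Pool.Agent.Q287 MeasureTheory ProbabilityTheory
open scoped ENNReal NNReal

/-- Let `η_1, η_2, …` be i.i.d. with mean zero, `s > 0`, and let `f lam h` be the quenched free
energy for all `lam, h ≥ 0`. Let `lamc` be the threshold: `h_c < ∞` on `[0, lamc)` and `h_c = ∞`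
beyond `lamc`. If `E exp (lam' s η_1) < ∞` for some `lam' > lamc`, then `h_c (lamc) = ∞`, that is,
the model at `lamc` is localized for every `h ≥ 0`. -/
theorem result {Ω : Type*} [MeasurableSpace Ω] (μ : Measure Ω) [IsProbabilityMeasure μ]
    (η : ℕ → Ω → ℝ) (hmeas : ∀ i, Measurable (η i)) (hindep : iIndepFun η μ)
    (hident : ∀ i, IdentDistrib (η i) (η 0) μ μ) (hint : Integrable (η 0) μ)
    (_hmean : ∫ ω, η 0 ω ∂μ = 0) (s : ℝ) (hs : 0 < s) (f : ℝ → ℝ → ℝ)
    (hf : ∀ lam h, 0 ≤ lam → 0 ≤ h → PN.IsFreeEnergy μ η lam h s (f lam h))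
    (lamc : ℝ) (hlamc : 0 < lamc)
    (_hlt : ∀ lam, 0 ≤ lam → lam < lamc → PN.hc f lam < ⊤)
    (hgt : ∀ lam, lamc < lam → PN.hc f lam = ⊤)
    (hmom : ∃ lam', lamc < lam' ∧ Integrable (fun ω => Real.exp (lam' * s * η 0 ω)) μ) :
    PN.hc f lamc = ⊤ ∧ ∀ h : ℝ, 0 ≤ h → h < f lamc h := by
  have key : ∀ h : ℝ, 0 ≤ h → h < f lamc h := by
    intro h hh
    have h1 := PN.excess_nonneg (hf lamc h hlamc.le hh)
    refine lt_of_le_of_ne h1 ?_
    intro heq
    have hf0 := hf lamc h hlamc.le hh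
    rw [← heq] at hf0
    obtain ⟨lam, hlam, h2, hh2, h3⟩ := PN.core hmeas hindep hident hint hlamc.le hh hs.le hf0 hmom
    have h4 := h3 _ (hf lam h2 (hlamc.le.trans hlam.le) hh2)
    have h5 := hgt lam hlam
    have h6 : PN.hc f lam ≤ ENNReal.ofNNReal ⟨h2, hh2⟩ := by
      unfold PN.hc
      exact iInf₂_le (f := fun (h : ℝ≥0) (_ : f lam h = h) => (h : ℝ≥0∞)) ⟨h2, hh2⟩ h4
    rw [h5, top_le_iff] at h6
    exact ENNReal.coe_ne_top h6
  refine ⟨?_, key⟩
  unfold PN.hc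
  simp only [iInf_eq_top]
  intro h hh
  have := key h h.2
  exact absurd hh this.ne'

end Pool.Agent.Results.MP_11b949_pr.EndpointInfinite
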